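import Pool.Agent.H110R3.Urn.Stmts

/-!
# Task N2a of the project H110-URN
-/

set_option autoImplicit false

namespace Pool.Agent.H878.UrnN2a

open Pool.Agent.H110R3.Urn Finset

variable {m : ℕ} (G : SimpleGraph (Fin m)) [DecidableRel G.Adj]

/-- pairs of states with the same total number of balls -/
def Good (t : ℝ) (b b' : Fin m → ℕ) : Prop :=
  (∀ i, 1 ≤ b i) ∧ (∀ i, 1 ≤ b' i) ∧ tot b = t ∧ tot b' = t

theorem good_stp (h3 : TaskA3) (hm : 0 < m) {t : ℝ} {b b' : Fin m → ℕ} (h : Good t b b')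
    (s s' : Ch G) : Good (t + NE G) (stp G b s) (stp G b' s') := by
  obtain ⟨-, -, h4, -⟩ := h3 m G hm
  refine ⟨fun i => (h.1 i).trans (Nat.le_add_right _ _), fun i => (h.2.1 i).trans (Nat.le_add_right _ _),
    ?_, ?_⟩
  · rw [h4, h.2.2.1]
  · rw [h4, h.2.2.2]

theorem mono (h1 : TaskA1) (h3 : TaskA3) (hm : 0 < m) (α : ℝ) (U : Set (Fin m → ℕ))
    [DecidablePred (· ∈ U)] : ∀ (k : ℕ) (t : ℝ) (F F' : (Fin m → ℕ) → (Fin m → ℕ) → ℝ),
    (∀ b b', Good (t + k * NE G) b b' → F b b' ≤ F' b b') → ∀ b b', Good t b b' →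
      (K2 G α U)^[k] F b b' ≤ (K2 G α U)^[k] F' b b' := by
  intro k
  induction k with
  | zero =>
    intro t F F' h b b' hb
    apply h
    simpa using hb
  | succ k ih =>
    intro t F F' h b b' hb
    rw [Function.iterate_succ_apply', Function.iterate_succ_apply']
    unfold K2
    split_ifs with hU
    · apply Finset.sum_le_sum
      intro s _
      apply Finset.sum_le_sum
      intro s' _
      apply mul_le_mul_of_nonneg_left
      · apply ih (t + NE G)
        · intro c c' hc
          apply h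
          have e : t + ((k + 1 : ℕ) : ℝ) * NE G = t + NE G + k * NE G := by push_cast; ring
          rw [e]
          exact hc
        · exact good_stp G h3 hm hb s s'
      · exact mul_nonneg ((h1 m G α b hb.1).1 s) ((h1 m G α b' hb.2.1).1 s')
    · exact le_rfl

theorem lin1 (α : ℝ) (U : Set (Fin m → ℕ)) [DecidablePred (· ∈ U)] (A B : ℝ)
    (F F' : (Fin m → ℕ) → (Fin m → ℕ) → ℝ) :
    K2 G α U (fun b b' => A * F b b' + B * F' b b') =
      fun b b' => A * K2 G α U F b b' + B * K2 G α U F' b b' := by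
  funext b b'
  unfold K2
  split_ifs with hU
  · rw [Finset.mul_sum, Finset.mul_sum, ← Finset.sum_add_distrib]
    apply Finset.sum_congr rfl
    intro s _
    rw [Finset.mul_sum, Finset.mul_sum, ← Finset.sum_add_distrib]
    apply Finset.sum_congr rfl
    intro s' _
    ring
  · ring

theorem lin (α : ℝ) (U : Set (Fin m → ℕ)) [DecidablePred (· ∈ U)] (A B : ℝ) (k : ℕ) :
    ∀ (F F' : (Fin m → ℕ) → (Fin m → ℕ) → ℝ),
    (K2 G α U)^[k] (fun b b' => A * F b b' + B * F' b b') =
      fun b b' => A * (K2 G α U)^[k] F b b' + B * (K2 G α U)^[k] F' b b' := by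
  induction k with
  | zero => intro F F'; rfl
  | succ k ih =>
    intro F F'
    rw [Function.iterate_succ_apply, lin1, ih, Function.iterate_succ_apply,
      Function.iterate_succ_apply]

theorem prod1 (α : ℝ) (U : Set (Fin m → ℕ)) [DecidablePred (· ∈ U)] (F F' : (Fin m → ℕ) → ℝ) :
    K2 G α U (fun b b' => F b * F' b') = fun b b' => KK G α U F b * KK G α U F' b' := by
  funext b b'
  unfold K2 KK PP
  by_cases h1 : b ∈ U
  · by_cases h2 : b' ∈ U
    · rw [if_pos ⟨h1, h2⟩, if_pos h1, if_pos h2, Finset.sum_mul_sum]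
      apply Finset.sum_congr rfl
      intro s _
      apply Finset.sum_congr rfl
      intro s' _
      ring
    · rw [if_neg (fun h => h2 h.2), if_neg h2, mul_zero]
  · rw [if_neg (fun h => h1 h.1), if_neg h1, zero_mul]

theorem prodK (α : ℝ) (U : Set (Fin m → ℕ)) [DecidablePred (· ∈ U)] (k : ℕ) :
    ∀ F F' : (Fin m → ℕ) → ℝ, (K2 G α U)^[k] (fun b b' => F b * F' b') =
      fun b b' => (KK G α U)^[k] F b * (KK G α U)^[k] F' b' := by
  induction k with
  | zero => intro F F'; rfl
  | succ k ih =>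
    intro F F'
    rw [Function.iterate_succ_apply, prod1, ih, Function.iterate_succ_apply,
      Function.iterate_succ_apply]

/-- bound for the quadratic form -/
def CQ (Q : Fin m → Fin m → ℝ) : ℝ := ∑ i, ∑ j, |Q i j|

theorem CQ_nonneg (Q : Fin m → Fin m → ℝ) : 0 ≤ CQ Q :=
  Finset.sum_nonneg fun _ _ => Finset.sum_nonneg fun _ _ => abs_nonneg _

theorem Qf_le (Q : Fin m → Fin m → ℝ) (z : Fin m → ℝ) : Qf Q z ≤ CQ Q * ∑ i, (z i) ^ 2 := by
  unfold Qf CQ
  rw [Finset.sum_mul]
  apply Finset.sum_le_sum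
  intro i _
  rw [Finset.sum_mul]
  apply Finset.sum_le_sum
  intro j _
  have hi : (z i) ^ 2 ≤ ∑ k, (z k) ^ 2 :=
    Finset.single_le_sum (f := fun k => (z k) ^ 2) (fun _ _ => sq_nonneg _) (Finset.mem_univ i)
  have hj : (z j) ^ 2 ≤ ∑ k, (z k) ^ 2 :=
    Finset.single_le_sum (f := fun k => (z k) ^ 2) (fun _ _ => sq_nonneg _) (Finset.mem_univ j)
  have h1 : |z i * z j| ≤ ∑ k, (z k) ^ 2 := by
    rw [abs_le]
    constructor <;> nlinarith [sq_nonneg (z i + z j), sq_nonneg (z i - z j)]
  calc Q i j * z i * z j = Q i j * (z i * z j) := by ring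
    _ ≤ |Q i j * (z i * z j)| := le_abs_self _
    _ = |Q i j| * |z i * z j| := abs_mul _ _
    _ ≤ |Q i j| * ∑ k, (z k) ^ 2 := mul_le_mul_of_nonneg_left h1 (abs_nonneg _)

theorem Qf_le' (Q : Fin m → Fin m → ℝ) (z : Fin m → ℝ) (hz : ∀ i, |z i| ≤ 1) :
    Qf Q z ≤ CQ Q := by
  unfold Qf CQ
  apply Finset.sum_le_sum
  intro i _
  apply Finset.sum_le_sum
  intro j _
  have h1 : |z i * z j| ≤ 1 := by
    rw [abs_mul]
    exact mul_le_one₀ (hz i) (abs_nonneg _) (hz j)
  calc Q i j * z i * z j = Q i j * (z i * z j) := by ring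
    _ ≤ |Q i j * (z i * z j)| := le_abs_self _
    _ = |Q i j| * |z i * z j| := abs_mul _ _
    _ ≤ |Q i j| * 1 := mul_le_mul_of_nonneg_left h1 (abs_nonneg _)
    _ = |Q i j| := mul_one _

theorem X_mem (b : Fin m → ℕ) (i : Fin m) : 0 ≤ X b i ∧ X b i ≤ 1 := by
  have h0 : 0 ≤ tot b := Finset.sum_nonneg fun _ _ => Nat.cast_nonneg _
  have h1 : (b i : ℝ) ≤ tot b :=
    Finset.single_le_sum (f := fun k => (b k : ℝ)) (fun _ _ => Nat.cast_nonneg _) (Finset.mem_univ i)
  unfold X
  exact ⟨div_nonneg (Nat.cast_nonneg _) h0, div_le_one_of_le₀ h1 h0⟩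

theorem Qf_zero (Q : Fin m → Fin m → ℝ) : Qf Q (fun _ => 0) = 0 := by
  unfold Qf
  simp

theorem taskN2a : TaskN2a := by
  intro h1 h3 m G _ hm hNE α v Q ρ θ c S0 hρ hθ hc hS0 hN1 U _ hU
  refine ⟨θ * CQ Q + 1, by have := CQ_nonneg Q; positivity, ?_⟩
  intro b0 hb0 hS
  set T : ℝ := tot b0 with hT
  have hT0 : 0 < T := hS0.trans_le hS
  have hgood : Good T b0 b0 := ⟨hb0, hb0, rfl, rfl⟩
  -- the functions
  let V : (Fin m → ℕ) → (Fin m → ℕ) → ℝ := fun b b' =>
    Real.exp (-(θ * T * Qf Q (fun i => X b i - X b' i)))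
  let D : (Fin m → ℕ) → (Fin m → ℕ) → ℝ := fun b b' => ∑ i, (X b i - X b' i) ^ 2
  let F1 : (Fin m → ℕ) → (Fin m → ℕ) → ℝ := fun b b' => if b ∈ U ∧ b' ∈ U then V b b' else 0
  let F2 : (Fin m → ℕ) → (Fin m → ℕ) → ℝ := fun b b' => if b ∈ U ∧ b' ∈ U then D b b' else 0
  let F3 : (Fin m → ℕ) → (Fin m → ℕ) → ℝ := fun b b' =>
    if b ∈ U ∧ b' ∈ U then D b b' * V b b' else 0
  have hV : ∀ b b', 0 < V b b' := fun _ _ => Real.exp_pos _
  have hD : ∀ b b', 0 ≤ D b b' := fun _ _ => Finset.sum_nonneg fun _ _ => sq_nonneg _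
  have hF1 : ∀ b b', 0 ≤ F1 b b' := by
    intro b b'
    show 0 ≤ if b ∈ U ∧ b' ∈ U then V b b' else 0
    split_ifs
    · exact (hV b b').le
    · exact le_rfl
  have hF2 : ∀ b b', 0 ≤ F2 b b' := by
    intro b b'
    show 0 ≤ if b ∈ U ∧ b' ∈ U then D b b' else 0
    split_ifs
    · exact hD b b'
    · exact le_rfl
  have hzero : ∀ k : ℕ, (K2 G α U)^[k] (fun _ _ => 0) = fun _ _ => 0 := by
    intro k
    have := lin G α U 0 0 k (fun _ _ => 0) (fun _ _ => 0)
    simpa using this
  have hpos : ∀ (k : ℕ) (F : (Fin m → ℕ) → (Fin m → ℕ) → ℝ), (∀ b b', 0 ≤ F b b') →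
      0 ≤ (K2 G α U)^[k] F b0 b0 := by
    intro k F hF
    have h := mono G h1 h3 hm α U k T (fun _ _ => 0) F (fun b b' _ => hF b b') b0 b0 hgood
    rw [hzero k] at h
    exact h
  have hNE0 : (0 : ℝ) < NE G := by exact_mod_cast hNE
  refine ⟨fun k => (K2 G α U)^[k] F1 b0 b0, fun k => (K2 G α U)^[k] F2 b0 b0,
    fun k => (K2 G α U)^[k] F3 b0 b0, Real.exp (-(θ * T * CQ Q)), Real.exp_pos _, ?_,
    fun k => hpos k F1 hF1, fun k => hpos k F2 hF2, ?_, ?_, ?_⟩
  · -- a 0
    show (if b0 ∈ U ∧ b0 ∈ U then V b0 b0 else 0) ≤ 1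
    split_ifs
    · show Real.exp (-(θ * T * Qf Q (fun i => X b0 i - X b0 i))) ≤ 1
      simp only [sub_self]
      rw [Qf_zero]
      simp
    · exact zero_le_one
  · -- r d ≤ e
    intro k
    have h := mono G h1 h3 hm α U k T
      (fun b b' => Real.exp (-(θ * T * CQ Q)) * F2 b b' + 0 * F2 b b') F3 (by
        intro b b' _
        show Real.exp (-(θ * T * CQ Q)) * (if b ∈ U ∧ b' ∈ U then D b b' else 0) +
          0 * (if b ∈ U ∧ b' ∈ U then D b b' else 0) ≤ if b ∈ U ∧ b' ∈ U then D b b' * V b b' else 0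
        split_ifs
        · rw [zero_mul, add_zero, mul_comm]
          apply mul_le_mul_of_nonneg_left _ (hD b b')
          apply Real.exp_le_exp.2
          apply neg_le_neg
          apply mul_le_mul_of_nonneg_left _ (by positivity)
          apply Qf_le'
          intro i
          have := X_mem b i
          have := X_mem b' i
          rw [abs_le]
          constructor <;> linarith
        · simp) b0 b0 hgood
    rw [lin] at h
    simpa using h
  · -- the square of qq
    intro k
    have e1 : (qq G α U (k + 1) b0) ^ 2 =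
        (K2 G α U)^[k] (fun b b' => KK G α U (fun _ => 1) b * KK G α U (fun _ => 1) b') b0 b0 := by
      rw [prodK]
      unfold qq
      rw [Function.iterate_succ_apply, sq]
    have h := mono G h1 h3 hm α U k T
      (fun b b' => KK G α U (fun _ => 1) b * KK G α U (fun _ => 1) b')
      (fun b b' => 1 * F1 b b' + ((θ * CQ Q + 1) * T) * F2 b b') (by
        intro b b' hb
        have hk : ∀ b : Fin m → ℕ, (∀ i, 1 ≤ b i) →
            KK G α U (fun _ => 1) b = if b ∈ U then 1 else 0 := by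
          intro b hb
          unfold KK PP
          simp only [mul_one]
          rw [(h1 m G α b hb).2.1]
        show _ ≤ 1 * (if b ∈ U ∧ b' ∈ U then V b b' else 0) +
          ((θ * CQ Q + 1) * T) * (if b ∈ U ∧ b' ∈ U then D b b' else 0)
        rw [hk b hb.1, hk b' hb.2.1]
        by_cases hbU : b ∈ U
        · by_cases hbU' : b' ∈ U
          · rw [if_pos hbU, if_pos hbU', if_pos ⟨hbU, hbU'⟩, if_pos ⟨hbU, hbU'⟩]
            have e2 : 1 - θ * T * Qf Q (fun i => X b i - X b' i) ≤ V b b' := by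
              have := Real.add_one_le_exp (-(θ * T * Qf Q (fun i => X b i - X b' i)))
              show _ ≤ Real.exp (-(θ * T * Qf Q (fun i => X b i - X b' i)))
              linarith
            have e3 : θ * T * Qf Q (fun i => X b i - X b' i) ≤ θ * T * (CQ Q * D b b') :=
              mul_le_mul_of_nonneg_left (Qf_le Q _) (by positivity)
            have e4 : 0 ≤ T * D b b' := mul_nonneg hT0.le (hD b b')
            nlinarith
          · simp [hbU']
        · simp [hbU]) b0 b0 hgood
    rw [lin, ← e1] at h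
    simpa using h
  · -- the recursion
    intro k
    show (K2 G α U)^[k + 1] F1 b0 b0 ≤ _
    rw [Function.iterate_succ_apply]
    set t : ℝ := T + k * NE G with ht
    have ht0 : 0 < t := by positivity
    have hTt : T ≤ t := by
      have : (0 : ℝ) ≤ k * NE G := by positivity
      linarith
    have h := mono G h1 h3 hm α U k T (K2 G α U F1)
      (fun b b' => 1 * (fun b b' => (1 - c * T / t ^ 2) * F1 b b' + (-(c * T / t)) * F3 b b') b b' +
        0 * F1 b b') (by
        intro b b' hb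
        show K2 G α U F1 b b' ≤ 1 * ((1 - c * T / t ^ 2) * (if b ∈ U ∧ b' ∈ U then V b b' else 0) +
          (-(c * T / t)) * (if b ∈ U ∧ b' ∈ U then D b b' * V b b' else 0)) +
          0 * (if b ∈ U ∧ b' ∈ U then V b b' else 0)
        unfold K2
        split_ifs with hbU
        · have e1 := hN1 T hS b b' hb.1 hb.2.1 (hb.2.2.1.trans hb.2.2.2.symm)
            (by rw [hb.2.2.1]; exact hTt) (hU b hbU.1) (hU b' hbU.2)
          rw [hb.2.2.1] at e1
          have e2 : ∑ s, ∑ s', w G α b s * w G α b' s' * F1 (stp G b s) (stp G b' s') ≤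
              ∑ s, ∑ s', w G α b s * w G α b' s' *
                Real.exp (-(θ * T * Qf Q (fun i => X (stp G b s) i - X (stp G b' s') i))) := by
            apply Finset.sum_le_sum
            intro s _
            apply Finset.sum_le_sum
            intro s' _
            apply mul_le_mul_of_nonneg_left
            · show (if _ ∧ _ then V (stp G b s) (stp G b' s') else 0) ≤ V (stp G b s) (stp G b' s')
              split_ifs
              · exact le_rfl
              · exact (hV _ _).le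
            · exact mul_nonneg ((h1 m G α b hb.1).1 s) ((h1 m G α b' hb.2.1).1 s')
          refine (e2.trans e1).trans_eq ?_
          show V b b' * (1 - c * T * D b b' / t - c * T / t ^ 2) = _
          ring
        · simp) b0 b0 hgood
    rw [lin] at h
    simp only [one_mul, zero_mul, add_zero] at h
    rw [lin] at h
    refine h.trans_eq ?_
    ring

end Pool.Agent.H878.UrnN2a
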